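import Pool.Agent.P.MP_05754a_lc.CuF
import Pool.Agent.P.MP_05754a_lc.CuS

set_option autoImplicit false

open MeasureTheory Filter Topology Pool.Agent.P.MP_05754a_lc

theorem Pool.Agent.Results.MP_05754a_lc.Cubes.result
    (d : ℕ) (hd : 1 ≤ d) (T : (Fin d → ℕ) → (ℕ → Bool) → ℕ → Bool)
    (hadd : ∀ k l ω, T (k + l) ω = T k (T l ω))
    (hT : EffOpenFam fun p : (Fin d → ℕ) × List Bool => T p.1 ⁻¹' cylOf p.2)
    (P : Measure (ℕ → Bool)) [IsProbabilityMeasure P] (hP : ∀ k, MeasurePreserving (T k) P P)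
    (f : (ℕ → Bool) → ℝ) (hf : LowerSemicomp f) (ω : ℕ → Bool) (hω : MLRand P ω) :
    (∃ L : ℝ, Tendsto (fun n : ℕ => (∑ k ∈ Fintype.piFinset fun _ : Fin d => Finset.range n,
        f (T k ω)) / (n : ℝ) ^ d) atTop (𝓝 L)) ∨
      Tendsto (fun n : ℕ => (∑ k ∈ Fintype.piFinset fun _ : Fin d => Finset.range n,
        f (T k ω)) / (n : ℝ) ^ d) atTop atTop :=
  Cu.cubes d hd T hadd hT P hP f hf ω hω

/-- Q1 as posed is the instance `d = 1`, `T k` the shift by `k 0` places. -/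
theorem Pool.Agent.Results.MP_05754a_lc.Cubes.q1
    (P : Measure (ℕ → Bool)) [IsProbabilityMeasure P]
    (hstat : ∀ x : List Bool, P (cylOf x) = P (cylOf (false :: x)) + P (cylOf (true :: x)))
    (f : (ℕ → Bool) → ℝ) (hf : LowerSemicomp f) (ω : ℕ → Bool) (hω : MLRand P ω) :
    (∃ L : ℝ, Tendsto (fun n : ℕ => (∑ k ∈ Finset.range n, f fun i => ω (i + k)) / n)
        atTop (𝓝 L)) ∨
      Tendsto (fun n : ℕ => (∑ k ∈ Finset.range n, f fun i => ω (i + k)) / n) atTop atTop := by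
  have := Pool.Agent.Results.MP_05754a_lc.Cubes.result 1 le_rfl (fun k ω i => ω (i + k 0))
    (fun k l ω => by simp only [Pi.add_apply, add_assoc]) Cu.line_eff P
    (fun k => Cu.line_pres hstat (k 0)) f hf ω hω
  simpa only [Cu.line_sum fun k => f fun i => ω (i + k), pow_one] using this

/-- The shifts of the quarter plane, coded by `Nat.pair`, with a Bernoulli measure meet the
hypotheses on `T` and `P` for `d = 2`. -/
theorem Pool.Agent.Results.MP_05754a_lc.Cubes.plane_shift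
    (μ : Measure Bool) [IsProbabilityMeasure μ] (T : (Fin 2 → ℕ) → (ℕ → Bool) → ℕ → Bool)
    (hT : ∀ k ω i j, T k ω (Nat.pair i j) = ω (Nat.pair (i + k 0) (j + k 1))) :
    (∀ k l ω, T (k + l) ω = T k (T l ω)) ∧
      (EffOpenFam fun p : (Fin 2 → ℕ) × List Bool => T p.1 ⁻¹' cylOf p.2) ∧
      ∀ k, MeasurePreserving (T k) (Measure.infinitePi fun _ => μ)
        (Measure.infinitePi fun _ => μ) :=
  Cu.plane μ T hT
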