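import Pool.Agent.P.MP_05754a_lc.Inst

set_option autoImplicit false

open MeasureTheory Filter Topology Pool.Agent.P.MP_05754a_lc

theorem Pool.Agent.Results.MP_05754a_lc.Kingman.result
    (T : (ℕ → Bool) → ℕ → Bool) (D : Set (ℕ → Bool))
    (hT : EffOpenOn D fun x : List Bool => T ⁻¹' cylOf x) :
    ∃ U : ℕ → Set (ℕ → Bool), EffOpenFam U ∧ Antitone U ∧
      (∀ (P : Measure (ℕ → Bool)) [IsProbabilityMeasure P], MeasurePreserving T P P →
        (∀ᵐ ω ∂P, ω ∈ D) → ∀ m, P (U m) ≤ 2⁻¹ ^ m) ∧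
      ∀ ω, (∀ k, T^[k] ω ∈ D) → ω ∉ ⋂ m, U m →
        ∀ F : ℕ → (ℕ → Bool) → ℝ,
          (EffOpenOn D fun q : ℕ × ℤ × ℕ =>
            {z | (q.2.1 : ℝ) / ((q.2.2 : ℝ) + 1) < F q.1 z}) →
          BddBelow (Set.range fun k => F 1 (T^[k] ω)) →
          (∀ k m n, 1 ≤ m → 1 ≤ n →
            F m (T^[k] ω) + F n (T^[k + m] ω) ≤ F (m + n) (T^[k] ω)) →
          (∃ L : ℝ, Tendsto (fun n : ℕ => F n ω / n) atTop (𝓝 L)) ∨
            Tendsto (fun n : ℕ => F n ω / n) atTop atTop :=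
  kingman T D hT

/-- Q1 as posed is the instance: `T` the shift, `D` the whole space, `F n` the Birkhoff sums. -/
theorem Pool.Agent.Results.MP_05754a_lc.Kingman.q1
    (P : Measure (ℕ → Bool)) [IsProbabilityMeasure P]
    (hstat : ∀ x : List Bool, P (cylOf x) = P (cylOf (false :: x)) + P (cylOf (true :: x)))
    (f : (ℕ → Bool) → ℝ) (hf : LowerSemicomp f) (ω : ℕ → Bool) (hω : MLRand P ω) :
    (∃ L : ℝ, Tendsto (fun n : ℕ => (∑ k ∈ Finset.range n, f fun i => ω (i + k)) / n)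
        atTop (𝓝 L)) ∨
      Tendsto (fun n : ℕ => (∑ k ∈ Finset.range n, f fun i => ω (i + k)) / n) atTop atTop := by
  obtain ⟨U, h1, h2, h3, h4⟩ :=
    Pool.Agent.Results.MP_05754a_lc.Kingman.result (sh 1) Set.univ shift_effOpen
  obtain ⟨c, hc⟩ := exists_lower hf
  refine h4 ω (fun _ => trivial)
    (fun h => hω ⟨U, h1, h2, h3 P (shift_preserving hstat) (by simp), h⟩)
    (fun n z => ∑ k ∈ Finset.range n, f fun i => z (i + k)) (sums_effOpen hf)
    ⟨-c, ?_⟩ fun k m n _ _ => le_of_eq ?_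
  · rintro _ ⟨k, rfl⟩
    simpa using (hc _).le
  · simp only [iterate_sh, Finset.sum_range_add, add_assoc, add_comm k, add_left_comm _ m]
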